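import Pool.Agent.Helper52.GPM.S

/-!
# Gilbert-Pollak, chapter MSTF, module xCore: optimal connecting sets
-/

namespace Pool.Agent.Helper12.GPM

open Relation Classical Pool.Agent.Helper18.GP Pool.Agent.Helper52.GPM

private theorem eqv_bind {α : Type} {r s : α → α → Prop} (h : ∀ x y, r x y → EqvGen s x y)
    {a b : α} (hab : EqvGen r a b) : EqvGen s a b := by
  induction hab with
  | rel x y hxy => exact h x y hxy
  | refl x => exact EqvGen.refl x
  | symm x y _ ih => exact EqvGen.symm _ _ ih
  | trans x y z _ _ ih1 ih2 => exact EqvGen.trans _ _ _ ih1 ih2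

private theorem wnn {N : ℕ} {V : Finset (Fin N)} {w : Fin N → Fin N → ℝ} (hw : WP V w) :
    ∀ a ∈ V, ∀ b ∈ V, 0 ≤ w a b := by
  intro a ha b hb
  by_cases hab : a = b
  · rw [← hab, hw.di a ha]
  · exact (hw.po a ha b hb hab).le

private theorem mw_erase {N : ℕ} (w : Fin N → Fin N → ℝ) (m : Finset (Fin N × Fin N))
    (a b : Fin N) (hab : (a, b) ∈ m) : mw w (m.erase (a, b)) = mw w m - w a b := by
  unfold mw
  rw [Finset.sum_erase_eq_sub hab]

theorem mod_xCore (hU : xUse) (hA : stMAtt) : xLoop ∧ xEx ∧ xSplit ∧ xBridge ∧ xExch := by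
  have hLoop : xLoop := by
    intro N V w F hw m hm
    refine ⟨⟨fun e he => hm.1 e (Finset.mem_filter.1 he).1, fun a ha b hb => ?_⟩, ?_⟩
    · refine eqv_bind (fun x y hxy => ?_) (hm.2 a ha b hb)
      rcases hxy with hxy | hxy
      · by_cases hne : x = y
        · rw [hne]
          exact EqvGen.refl y
        · exact EqvGen.rel _ _ (Or.inl (Finset.mem_filter.2 ⟨hxy, hne⟩))
      · exact EqvGen.rel _ _ (Or.inr hxy)
    · unfold mw
      refine Finset.sum_filter_of_ne fun e he hne h => hne ?_
      rw [h]
      exact hw.di _ (hm.1 e he).2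
  refine ⟨hLoop, ?_, ?_, ?_, ?_⟩
  · intro N V w F hw
    obtain ⟨m, hm, hmw⟩ := hA N V w F
    obtain ⟨h1, h2⟩ := hLoop N V w F hw m hm
    exact ⟨_, h1, h2.trans hmw, fun e he => (Finset.mem_filter.1 he).2⟩
  · intro N V F m hm a b hab c hc
    rcases hU N F m a b c a (hm.2 c hc a (hm.1 _ hab).1) with h | h | h
    · exact Or.inl h
    · exact Or.inl h.1
    · exact Or.inr h.1
  · intro N V w F hw m hm a b hab hcon
    have hMC : MConn V F (m.erase (a, b)) := by
      refine ⟨fun e he => hm.1.1 e (Finset.mem_of_mem_erase he), fun x hx y hy => ?_⟩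
      refine eqv_bind (fun u v huv => ?_) (hm.1.2 x hx y hy)
      rcases huv with huv | huv
      · by_cases he : (u, v) = (a, b)
        · rw [Prod.mk.injEq] at he
          rw [he.1, he.2]
          exact hcon
        · exact EqvGen.rel _ _ (Or.inl (Finset.mem_erase.2 ⟨he, huv⟩))
      · exact EqvGen.rel _ _ (Or.inr huv)
    have h1 := Mst_le (wnn hw) hMC
    rw [mw_erase w m a b hab, hm.2.1] at h1
    have h2 := hw.po a (hm.1.1 _ hab).1 b (hm.1.1 _ hab).2 (hm.2.2 _ hab)
    linarith
  · intro N V w F hw m hm a b hab c hc c' hc' hca hcb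
    have hMC : MConn V F (insert (c, c') (m.erase (a, b))) := by
      have hmono : ∀ x y, mr (m.erase (a, b)) F x y →
          EqvGen (fun x y => (x, y) ∈ insert (c, c') (m.erase (a, b)) ∨ F x y) x y := by
        intro x y hxy
        rcases hxy with hxy | hxy
        · exact EqvGen.rel _ _ (Or.inl (Finset.mem_insert_of_mem hxy))
        · exact EqvGen.rel _ _ (Or.inr hxy)
      refine ⟨fun e he => ?_, fun x hx y hy => ?_⟩
      · rcases Finset.mem_insert.1 he with h | h
        · rw [h]
          exact ⟨hc, hc'⟩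
        · exact hm.1.1 e (Finset.mem_of_mem_erase h)
      · refine eqv_bind (fun u v huv => ?_) (hm.1.2 x hx y hy)
        rcases huv with huv | huv
        · by_cases he : (u, v) = (a, b)
          · rw [Prod.mk.injEq] at he
            rw [he.1, he.2]
            have h1 := eqv_bind hmono hca
            have h2 := eqv_bind hmono hcb
            exact EqvGen.trans _ _ _ (EqvGen.symm _ _ h1)
              (EqvGen.trans _ _ _ (EqvGen.rel _ _ (Or.inl (Finset.mem_insert_self _ _))) h2)
          · exact EqvGen.rel _ _ (Or.inl (Finset.mem_insert_of_mem (Finset.mem_erase.2 ⟨he, huv⟩)))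
        · exact EqvGen.rel _ _ (Or.inr huv)
    have h1 := Mst_le (wnn hw) hMC
    have h2 : mw w (insert (c, c') (m.erase (a, b))) ≤ mw w (m.erase (a, b)) + w c c' := by
      by_cases hin : (c, c') ∈ m.erase (a, b)
      · rw [Finset.insert_eq_of_mem hin]
        have := wnn hw c hc c' hc'
        linarith
      · unfold mw
        rw [Finset.sum_insert hin]
        linarith
    rw [mw_erase w m a b hab, hm.2.1] at h2
    linarith

end Pool.Agent.Helper12.GPM

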